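import Pool.Agent.Lib.K5N.CL

/-!
# K5S.Sys2 : the analytic interface of stage 2 of project K5

`ser2 c x z` : value at `(x, z)` of the family of coefficients `c`.

`Sys2` : the exact theorems of the graph side, for abstract functions.  `ser2 tc x z` is `T_0 x z`
(rooted 3-connected graphs, weight `z` for an edge), `ser2 rc x z` is `Br x z` (branches),
`ser2 dc x y` is `D(x, y)` (networks, weight `y` for an edge).
-/

namespace K5S

open K5N
open scoped ENNReal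

noncomputable section

/-- Value of a family of coefficients at `(x, z)`. -/
def ser2 (c : ℕ → ℕ → ℝ≥0∞) (x z : ℝ≥0∞) : ℝ≥0∞ :=
  ∑' m : ℕ × ℕ, c m.1 m.2 * x ^ m.1 * z ^ m.2

/-- The exact block theorems, for abstract functions. -/
structure Sys2 extends K5N.Sys where
  /-- `T_0`: rooted 3-connected graphs -/
  tc : ℕ → ℕ → ℝ≥0∞
  /-- branches -/
  rc : ℕ → ℕ → ℝ≥0∞
  /-- networks with a weight for every edge -/
  dc : ℕ → ℕ → ℝ≥0∞
  /-- a triangle is not 3-connected -/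
  hac0 : ∀ j k l, ac 0 j k l = 0
  /-- upper bound for the branches -/
  hBrU : ∀ x z t a : ℝ, 0 ≤ x → 0 ≤ z → 0 ≤ a →
    ser ac (.ofReal x) (.ofReal z) (.ofReal (1 + z)) (.ofReal t) ≤ .ofReal a →
    Real.exp a - 1 - a ≤ t → ser2 rc (.ofReal x) (.ofReal z) ≤ .ofReal a
  /-- exact equation of the branches -/
  hBrE : ∀ x z a : ℝ, 0 ≤ x → 0 ≤ z → 0 ≤ a → ser2 rc (.ofReal x) (.ofReal z) = .ofReal a →
    ser ac (.ofReal x) (.ofReal z) (.ofReal (1 + z)) (.ofReal (Real.exp a - 1 - a)) = .ofReal a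
  /-- exact equation of the rooted 3-connected graphs -/
  hT0E : ∀ x z a : ℝ, 0 ≤ x → 0 ≤ z → 0 ≤ a → ser2 rc (.ofReal x) (.ofReal z) = .ofReal a →
    ser kc (.ofReal x) (.ofReal z) (.ofReal (1 + z)) (.ofReal (Real.exp a - 1 - a)) +
        .ofReal (3 / 2 * x ^ 6 * z ^ 11) =
      ser2 tc (.ofReal x) (.ofReal z) + .ofReal (x ^ 4 * z ^ 8 / 4) +
        .ofReal (x * (1 + z) ^ 2 * ((a - 1) * Real.exp a + 1 - a ^ 2 / 2))
  /-- networks: supersolutions -/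
  hNU : ∀ x z τ : ℝ, 0 < x → 1 ≤ z → 0 ≤ τ →
    ser2 tc (.ofReal x) (.ofReal z) ≤ .ofReal τ →
    x * z ^ 2 / (1 + x * z) + τ ≤ Real.log ((1 + z) / 2) → Dg (.ofReal x) ≤ .ofReal z
  /-- networks with weight `y`: exact equation -/
  hNE : ∀ x y : ℝ, 0 < x → 0 ≤ y → ser2 dc (.ofReal x) (.ofReal y) ≠ ∞ →
    ∃ z : ℝ, y ≤ z ∧ ser2 dc (.ofReal x) (.ofReal y) = .ofReal z ∧
      0 ≤ Real.log ((1 + z) / (1 + y)) - x * z ^ 2 / (1 + x * z) ∧
      ser2 tc (.ofReal x) (.ofReal z) =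
        .ofReal (Real.log ((1 + z) / (1 + y)) - x * z ^ 2 / (1 + x * z))
  /-- weight one -/
  hDg : ∀ x : ℝ≥0∞, Dg x = ser2 dc x 1

end

end K5S
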