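import Pool.Agent.Lib.K5S.Iv
import Pool.Agent.Lib.K5C.Defs

/-!
# K5S.Enc : enclosure of the exact growth constant

The critical point lies in a box of radius `10^(-11)`; then `pBx 1` and `exp (pBx 1) / px` at this
point lie in the intervals below.  Generated file.
-/

namespace K5S

open K5N K5C

theorem enc {r s y t : ℝ} (hr : In (150590228038589/1000000000000000) (150590228058589/1000000000000000) r)
    (hs : In (1728695357148073/1000000000000000) (1728695357168073/1000000000000000) s)
    (hy : In (102606102390457/500000000000000) (102606102400457/500000000000000) y)
    (ht : In (43078295739/40000000000000) (43078296539/40000000000000) t) (hM : pM r s y t = 0) :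
    In (373820067026734607293/10000000000000000000000) (93455016955686332149/2500000000000000000000) (px r s y t) ∧
    In (76408401252546573387/2000000000000000000000) (9551200308695106107/250000000000000000000) (pBx 1 r s y t) ∧
    In (138963/5000) (277927/10000) (Real.exp (pBx 1 r s y t) / px r s y t) := by
  unfold pM at hM
  have h1 : In (939642792593331/500000000000000) (939642792613331/500000000000000) (r + s) := hr.add hs (by norm_num) (by norm_num)
  have h2 : In (650811570105445919919/2500000000000000000000) (1301623140398820398359/5000000000000000000000) (r * s) := hr.mul hs (by norm_num) (by norm_num) (by norm_num) (by norm_num)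
  have h3 : In (11338708390357118309/500000000000000000000) (226774167867378457401/10000000000000000000000) (r ^ 2) := hr.pow 2 (by norm_num) (by norm_num) (by norm_num)
  have h4 : In (373548454728162958027/125000000000000000000) (116733892105252010879/39062500000000000000) (s ^ 2) := hs.pow 2 (by norm_num) (by norm_num) (by norm_num)
  have h5 : In (1728695357148073/500000000000000) (1728695357168073/500000000000000) (2 * s) := (In.const (c := 2) (le_refl _) (le_refl _)).mul hs (by norm_num) (by norm_num) (by norm_num) (by norm_num)
  have h6 : In (721596188466947/200000000000000) (721596188478947/200000000000000) (r + (2 * s)) := hr.add h5 (by norm_num) (by norm_num)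
  have h7 : In (451770684115767/500000000000000) (451770684175767/500000000000000) (6 * r) := (In.const (c := 6) (le_refl _) (le_refl _)).mul hr (by norm_num) (by norm_num) (by norm_num) (by norm_num)
  have h8 : In (15619477682530702078057/10000000000000000000000) (7809738842392922390153/5000000000000000000000) ((6 * r) * s) := h7.mul hs (by norm_num) (by norm_num) (by norm_num) (by norm_num)
  have h9 : In (15846251850337844444237/10000000000000000000000) (15846251852653223237707/10000000000000000000000) ((r ^ 2) + ((6 * r) * s)) := h3.add h8 (by norm_num) (by norm_num)
  have h10 : In (1120645364184488874081/125000000000000000000) (350201676315756032637/39062500000000000000) (3 * (s ^ 2)) := (In.const (c := 3) (le_refl _) (le_refl _)).mul h4 (by norm_num) (by norm_num) (by norm_num) (by norm_num)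
  have h11 : In (105497880985096954370717/10000000000000000000000) (105497880989486767592779/10000000000000000000000) (((r ^ 2) + ((6 * r) * s)) + (3 * (s ^ 2))) := h9.add h10 (by norm_num) (by norm_num)
  have h12 : In (154514763571297315393/5000000000000000000000) (61805905442751023471/2000000000000000000000) (y * r) := hy.mul hr (by norm_num) (by norm_num) (by norm_num) (by norm_num)
  have h13 : In (44598905781967845723/400000000000000000000) (1114972644824483594097/10000000000000000000000) ((y * r) * (r + (2 * s))) := h12.mul h6 (by norm_num) (by norm_num) (by norm_num) (by norm_num)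
  have h14 : In (390929635561406405903/10000000000000000000000) (15637185441467754277/400000000000000000000) (r - ((y * r) * (r + (2 * s)))) := hr.sub h13 (by norm_num) (by norm_num)
  have h15 : In (1621792594712446711/10000000000000000000000) (810896312522941901/5000000000000000000000) (t * r) := ht.mul hr (by norm_num) (by norm_num) (by norm_num) (by norm_num)
  have h16 : In (17109568213948528329/10000000000000000000000) (1710956853467179861/1000000000000000000000) ((t * r) * (((r ^ 2) + ((6 * r) * s)) + (3 * (s ^ 2)))) := h15.mul h11 (by norm_num) (by norm_num) (by norm_num) (by norm_num)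
  have h17 : In (373820067026734607293/10000000000000000000000) (93455016955686332149/2500000000000000000000) ((r - ((y * r) * (r + (2 * s)))) - ((t * r) * (((r ^ 2) + ((6 * r) * s)) + (3 * (s ^ 2))))) := h14.sub h16 (by norm_num) (by norm_num)
  have h18 : In (373820067026734607293/10000000000000000000000) (93455016955686332149/2500000000000000000000) (px r s y t) := In.congr h17 (by unfold px; ring)
  have h19 : In (35317143106903746367693/10000000000000000000000) (1765857155420358741793/500000000000000000000) ((r + s) ^ 2) := h1.pow 2 (by norm_num) (by norm_num) (by norm_num)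
  have h20 : In (102606102390457/250000000000000) (102606102400457/250000000000000) (2 * y) := (In.const (c := 2) (le_refl _) (le_refl _)).mul hy (by norm_num) (by norm_num) (by norm_num) (by norm_num)
  have h21 : In (771304676698290167787/1000000000000000000000) (3856523383949392837893/5000000000000000000000) ((2 * y) * (r + s)) := h20.mul h1 (by norm_num) (by norm_num) (by norm_num) (by norm_num)
  have h22 : In (1143476616050607162107/5000000000000000000000) (228695323301709832213/1000000000000000000000) (1 - ((2 * y) * (r + s))) := (In.const (c := 1) (le_refl _) (le_refl _)).sub h21 (by norm_num) (by norm_num)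
  have h23 : In (129234887217/40000000000000) (129234889617/40000000000000) (3 * t) := (In.const (c := 3) (le_refl _) (le_refl _)).mul ht (by norm_num) (by norm_num) (by norm_num) (by norm_num)
  have h24 : In (37920389387325530047369/10000000000000000000000) (18960194694602407816289/5000000000000000000000) (((r + s) ^ 2) + (r * s)) := h19.add h2 (by norm_num) (by norm_num)
  have h25 : In (122515931142393465123/10000000000000000000000) (122515933423688559993/10000000000000000000000) ((3 * t) * (((r + s) ^ 2) + (r * s))) := h23.mul h24 (by norm_num) (by norm_num) (by norm_num) (by norm_num)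
  have h26 : In (2164437298677525764221/10000000000000000000000) (2164437301874704857007/10000000000000000000000) ((1 - ((2 * y) * (r + s))) - ((3 * t) * (((r + s) ^ 2) + (r * s)))) := h22.sub h25 (by norm_num) (by norm_num)
  have h27 : In (563456334698844219357/10000000000000000000000) (281728167806250296951/5000000000000000000000) ((r * s) * ((1 - ((2 * y) * (r + s))) - ((3 * t) * (((r + s) ^ 2) + (r * s))))) := h2.mul h26 (by norm_num) (by norm_num) (by norm_num) (by norm_num)
  have h28 : In (563456334698844219357/10000000000000000000000) (281728167806250296951/5000000000000000000000) (pw1 r s y t) := In.congr h27 (by unfold pw1; ring)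
  have h29 : In (35317143106903746367693/5000000000000000000000) (1765857155420358741793/250000000000000000000) (2 * ((r + s) ^ 2)) := (In.const (c := 2) (le_refl _) (le_refl _)).mul h19 (by norm_num) (by norm_num) (by norm_num) (by norm_num)
  have h30 : In (36618766247114638207531/5000000000000000000000) (36618766248805995234219/5000000000000000000000) ((2 * ((r + s) ^ 2)) + (r * s)) := h29.add h2 (by norm_num) (by norm_num)
  have h31 : In (7514617757927310772329/5000000000000000000000) (234831804968961662557/156250000000000000000) (y * ((2 * ((r + s) ^ 2)) + (r * s))) := hy.mul h30 (by norm_num) (by norm_num) (by norm_num) (by norm_num)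
  have h32 : In (58806567716454274943/156250000000000000000) (1881810168205999227671/5000000000000000000000) ((r + s) - (y * ((2 * ((r + s) ^ 2)) + (r * s)))) := h1.sub h31 (by norm_num) (by norm_num)
  have h33 : In (129234887217/40000000000000) (129234889617/40000000000000) (3 * t) := (In.const (c := 3) (le_refl _) (le_refl _)).mul ht (by norm_num) (by norm_num) (by norm_num) (by norm_num)
  have h34 : In (12143463032506605473/2000000000000000000000) (30358658145698363687/5000000000000000000000) ((3 * t) * (r + s)) := h33.mul h1 (by norm_num) (by norm_num) (by norm_num) (by norm_num)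
  have h35 : In (650811570105445919919/1250000000000000000000) (1301623140398820398359/2500000000000000000000) (2 * (r * s)) := (In.const (c := 2) (le_refl _) (le_refl _)).mul h2 (by norm_num) (by norm_num) (by norm_num) (by norm_num)
  have h36 : In (8104727133549462745409/2000000000000000000000) (2532727229375153526831/625000000000000000000) (((r + s) ^ 2) + (2 * (r * s))) := h19.add h35 (by norm_num) (by norm_num)
  have h37 : In (30756079479628477161/1250000000000000000000) (246048640425286568333/10000000000000000000000) (((3 * t) * (r + s)) * (((r + s) ^ 2) + (2 * (r * s)))) := h34.mul h36 (by norm_num) (by norm_num) (by norm_num) (by norm_num)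
  have h38 : In (3517571693427787028019/10000000000000000000000) (1758785850287485319027/5000000000000000000000) (((r + s) - (y * ((2 * ((r + s) ^ 2)) + (r * s)))) - (((3 * t) * (r + s)) * (((r + s) ^ 2) + (2 * (r * s))))) := h32.sub h37 (by norm_num) (by norm_num)
  have h39 : In (91571054270328413617/1000000000000000000000) (915710544696082486839/10000000000000000000000) ((r * s) * (((r + s) - (y * ((2 * ((r + s) ^ 2)) + (r * s)))) - (((3 * t) * (r + s)) * (((r + s) ^ 2) + (2 * (r * s)))))) := h2.mul h38 (by norm_num) (by norm_num) (by norm_num) (by norm_num)
  have h40 : In (91571054270328413617/1000000000000000000000) (915710544696082486839/10000000000000000000000) (pw2 r s y t) := In.congr h39 (by unfold pw2; ring)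
  have h41 : In (37920389387325530047369/10000000000000000000000) (18960194694602407816289/5000000000000000000000) (((r + s) ^ 2) + (r * s)) := h19.add h2 (by norm_num) (by norm_num)
  have h42 : In (102606102390457/250000000000000) (102606102400457/250000000000000) (2 * y) := (In.const (c := 2) (le_refl _) (le_refl _)).mul hy (by norm_num) (by norm_num) (by norm_num) (by norm_num)
  have h43 : In (771304676698290167787/1000000000000000000000) (3856523383949392837893/5000000000000000000000) ((2 * y) * (r + s)) := h42.mul h1 (by norm_num) (by norm_num) (by norm_num) (by norm_num)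
  have h44 : In (650811570105445919919/1250000000000000000000) (1301623140398820398359/2500000000000000000000) (2 * (r * s)) := (In.const (c := 2) (le_refl _) (le_refl _)).mul h2 (by norm_num) (by norm_num) (by norm_num) (by norm_num)
  have h45 : In (8104727133549462745409/2000000000000000000000) (2532727229375153526831/625000000000000000000) (((r + s) ^ 2) + (2 * (r * s))) := h19.add h44 (by norm_num) (by norm_num)
  have h46 : In (31256069707351141813879/10000000000000000000000) (31256069712802038871501/10000000000000000000000) (((2 * y) * (r + s)) * (((r + s) ^ 2) + (2 * (r * s)))) := h43.mul h45 (by norm_num) (by norm_num) (by norm_num) (by norm_num)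
  have h47 : In (1666079918630872793967/2500000000000000000000) (6664319681853673818699/10000000000000000000000) ((((r + s) ^ 2) + (r * s)) - (((2 * y) * (r + s)) * (((r + s) ^ 2) + (2 * (r * s))))) := h41.sub h46 (by norm_num) (by norm_num)
  have h48 : In (24946011944670376136711/2000000000000000000000) (6236502986698562017801/500000000000000000000) ((r + s) ^ 4) := h1.pow 4 (by norm_num) (by norm_num) (by norm_num)
  have h49 : In (74838035834011128410133/2000000000000000000000) (18709508960095686053403/500000000000000000000) (3 * ((r + s) ^ 4)) := (In.const (c := 3) (le_refl _) (le_refl _)).mul h48 (by norm_num) (by norm_num) (by norm_num) (by norm_num)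
  have h50 : In (105951429320711239103079/2500000000000000000000) (5297571466261076225379/125000000000000000000) (12 * ((r + s) ^ 2)) := (In.const (c := 12) (le_refl _) (le_refl _)).mul h19 (by norm_num) (by norm_num) (by norm_num) (by norm_num)
  have h51 : In (2758176642845130438751/250000000000000000000) (110327065734430810540267/10000000000000000000000) ((12 * ((r + s) ^ 2)) * (r * s)) := h50.mul h2 (by norm_num) (by norm_num) (by norm_num) (by norm_num)
  have h52 : In (96903448976772171920141/2000000000000000000000) (484517244936344531608327/10000000000000000000000) ((3 * ((r + s) ^ 4)) + ((12 * ((r + s) ^ 2)) * (r * s))) := h49.add h51 (by norm_num) (by norm_num)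
  have h53 : In (338844559826492599517/5000000000000000000000) (677689119848674927431/10000000000000000000000) ((r * s) ^ 2) := h2.pow 2 (by norm_num) (by norm_num) (by norm_num)
  have h54 : In (338844559826492599517/1250000000000000000000) (677689119848674927431/2500000000000000000000) (4 * ((r * s) ^ 2)) := (In.const (c := 4) (le_refl _) (le_refl _)).mul h53 (by norm_num) (by norm_num) (by norm_num) (by norm_num)
  have h55 : In (487228001362472800396841/10000000000000000000000) (487228001415739231318051/10000000000000000000000) (((3 * ((r + s) ^ 4)) + ((12 * ((r + s) ^ 2)) * (r * s))) + (4 * ((r * s) ^ 2))) := h52.add h54 (by norm_num) (by norm_num)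
  have h56 : In (104944759675072491159/2000000000000000000000) (131180952044322040179/2500000000000000000000) (t * (((3 * ((r + s) ^ 4)) + ((12 * ((r + s) ^ 2)) * (r * s))) + (4 * ((r * s) ^ 2)))) := ht.mul h55 (by norm_num) (by norm_num) (by norm_num) (by norm_num)
  have h57 : In (383724741646637688447/625000000000000000000) (767449485434788920363/1250000000000000000000) (((((r + s) ^ 2) + (r * s)) - (((2 * y) * (r + s)) * (((r + s) ^ 2) + (2 * (r * s))))) - (t * (((3 * ((r + s) ^ 4)) + ((12 * ((r + s) ^ 2)) * (r * s))) + (4 * ((r * s) ^ 2))))) := h47.sub h56 (by norm_num) (by norm_num)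
  have h58 : In (319657602047174230551/2000000000000000000000) (1598288014926541966819/10000000000000000000000) ((r * s) * (((((r + s) ^ 2) + (r * s)) - (((2 * y) * (r + s)) * (((r + s) ^ 2) + (2 * (r * s))))) - (t * (((3 * ((r + s) ^ 4)) + ((12 * ((r + s) ^ 2)) * (r * s))) + (4 * ((r * s) ^ 2)))))) := h2.mul h57 (by norm_num) (by norm_num) (by norm_num) (by norm_num)
  have h59 : In (319657602047174230551/2000000000000000000000) (1598288014926541966819/10000000000000000000000) (pw3 r s y t) := In.congr h58 (by unfold pw3; ring)
  have h60 : In (301458580316784345209/200000000000000000000) (15072929072376516104779/10000000000000000000000) ((pw1 r s y t) / (px r s y t)) := h28.div h18 (by norm_num) (by norm_num) (by norm_num) (by norm_num) (by norm_num)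
  have h61 : In (301458580316784345209/200000000000000000000) (15072929072376516104779/10000000000000000000000) (pkap r s y t) := In.congr h60 (by unfold pkap; ring)
  have h62 : In (4543863782330555892311/2000000000000000000000) (908772763283572729071/400000000000000000000) ((pkap r s y t) ^ 2) := h61.pow 2 (by norm_num) (by norm_num) (by norm_num)
  have h63 : In (1712233406217779228639/500000000000000000000) (34244668509702262872503/10000000000000000000000) ((pkap r s y t) ^ 3) := h61.pow 3 (by norm_num) (by norm_num) (by norm_num)
  have h64 : In (1475201940944896301/400000000000000000000) (18440024811758865983/5000000000000000000000) (t * ((pkap r s y t) ^ 3)) := ht.mul h63 (by norm_num) (by norm_num) (by norm_num) (by norm_num)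
  have h65 : In (1475201940944896301/400000000000000000000) (18440024811758865983/5000000000000000000000) (pT r s y t) := In.congr h64 (by unfold pT; ring)
  have h66 : In (2331140762490491182303/5000000000000000000000) (4662281560411026641487/10000000000000000000000) (y * ((pkap r s y t) ^ 2)) := hy.mul h62 (by norm_num) (by norm_num) (by norm_num) (by norm_num)
  have h67 : In (1475201940944896301/200000000000000000000) (18440024811758865983/2500000000000000000000) (2 * (pT r s y t)) := (In.const (c := 2) (le_refl _) (le_refl _)).mul h65 (by norm_num) (by norm_num) (by norm_num) (by norm_num)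
  have h68 : In (592005202753528397457/1250000000000000000000) (4736041659658062105419/10000000000000000000000) ((y * ((pkap r s y t) ^ 2)) + (2 * (pT r s y t))) := h66.add h67 (by norm_num) (by norm_num)
  have h69 : In (592005202753528397457/1250000000000000000000) (4736041659658062105419/10000000000000000000000) (pY r s y t) := In.congr h68 (by unfold pY; ring)
  have h70 : In (13974144251187235437/10000000000000000000000) (698707215535009587/500000000000000000000) ((px r s y t) ^ 2) := h18.pow 2 (by norm_num) (by norm_num) (by norm_num)
  have h71 : In (522381554062007043/10000000000000000000000) (104476311479815529/2000000000000000000000) ((px r s y t) ^ 3) := h18.pow 3 (by norm_num) (by norm_num) (by norm_num)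
  have h72 : In (100763422903943980541/2500000000000000000000) (403053695516555694079/10000000000000000000000) ((pw2 r s y t) / ((pkap r s y t) ^ 2)) := h40.div h62 (by norm_num) (by norm_num) (by norm_num) (by norm_num) (by norm_num)
  have h73 : In (913550743532206049/312500000000000000000) (14616814244910543393/5000000000000000000000) (((pw2 r s y t) / ((pkap r s y t) ^ 2)) - (px r s y t)) := h72.sub h18 (by norm_num) (by norm_num)
  have h74 : In (20919795261199651074421/10000000000000000000000) (20919798711350367053423/10000000000000000000000) ((((pw2 r s y t) / ((pkap r s y t) ^ 2)) - (px r s y t)) / ((px r s y t) ^ 2)) := h73.div h70 (by norm_num) (by norm_num) (by norm_num) (by norm_num) (by norm_num)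
  have h75 : In (10919795261199651074421/10000000000000000000000) (10919798711350367053423/10000000000000000000000) (((((pw2 r s y t) / ((pkap r s y t) ^ 2)) - (px r s y t)) / ((px r s y t) ^ 2)) - 1) := h74.sub (In.const (c := 1) (le_refl _) (le_refl _)) (by norm_num) (by norm_num)
  have h76 : In (10919795261199651074421/10000000000000000000000) (10919798711350367053423/10000000000000000000000) (pD r s y t) := In.congr h75 (by unfold pD; ring)
  have h77 : In (20919795261199651074421/10000000000000000000000) (20919798711350367053423/10000000000000000000000) (1 + (pD r s y t)) := (In.const (c := 1) (le_refl _) (le_refl _)).add h76 (by norm_num) (by norm_num)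
  have h78 : In (116681521517943824971/2500000000000000000000) (46672609269347927613/1000000000000000000000) ((pw3 r s y t) / ((pkap r s y t) ^ 3)) := h59.div h63 (by norm_num) (by norm_num) (by norm_num) (by norm_num) (by norm_num)
  have h79 : In (41922432753561706311/10000000000000000000000) (2096121646605028761/500000000000000000000) (3 * ((px r s y t) ^ 2)) := (In.const (c := 3) (le_refl _) (le_refl _)).mul h70 (by norm_num) (by norm_num) (by norm_num) (by norm_num)
  have h80 : In (87700871005592122329/10000000000000000000000) (87700885842962980331/10000000000000000000000) ((3 * ((px r s y t) ^ 2)) * (1 + (pD r s y t))) := h79.mul h77 (by norm_num) (by norm_num) (by norm_num) (by norm_num)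
  have h81 : In (379025200228812319553/10000000000000000000000) (379025221687887153801/10000000000000000000000) (((pw3 r s y t) / ((pkap r s y t) ^ 3)) - ((3 * ((px r s y t) ^ 2)) * (1 + (pD r s y t)))) := h78.sub h80 (by norm_num) (by norm_num)
  have h82 : In (5205132406066990957/10000000000000000000000) (1301288665288136627/2500000000000000000000) ((((pw3 r s y t) / ((pkap r s y t) ^ 3)) - ((3 * ((px r s y t) ^ 2)) * (1 + (pD r s y t)))) - (px r s y t)) := h81.sub h18 (by norm_num) (by norm_num)
  have h83 : In (3985693853345965401523/400000000000000000000) (99642773001412127522907/10000000000000000000000) (((((pw3 r s y t) / ((pkap r s y t) ^ 3)) - ((3 * ((px r s y t) ^ 2)) * (1 + (pD r s y t)))) - (px r s y t)) / ((px r s y t) ^ 3)) := h82.div h71 (by norm_num) (by norm_num) (by norm_num) (by norm_num) (by norm_num)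
  have h84 : In (3985693853345965401523/400000000000000000000) (99642773001412127522907/10000000000000000000000) (pN r s y t) := In.congr h83 (by unfold pN; ring)
  have h85 : In (11444117351292530670711/1250000000000000000000) (45776492053921140819773/5000000000000000000000) ((1 + (pD r s y t)) ^ 3) := h77.pow 3 (by norm_num) (by norm_num) (by norm_num)
  have h86 : In (10883571661222775109623/10000000000000000000000) (680226478091480674721/625000000000000000000) ((pN r s y t) / ((1 + (pD r s y t)) ^ 3)) := h84.div h85 (by norm_num) (by norm_num) (by norm_num) (by norm_num) (by norm_num)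
  have h87 : In (883571661222775109623/10000000000000000000000) (55226478091480674721/625000000000000000000) (((pN r s y t) / ((1 + (pD r s y t)) ^ 3)) - 1) := h86.sub (In.const (c := 1) (le_refl _) (le_refl _)) (by norm_num) (by norm_num)
  have h88 : In (846691611599257377657/10000000000000000000000) (846743600940068388011/10000000000000000000000) ((((pN r s y t) / ((1 + (pD r s y t)) ^ 3)) - 1) - (pT r s y t)) := h87.sub h65 (by norm_num) (by norm_num)
  have h89 : In (846691611599257377657/10000000000000000000000) (846743600940068388011/10000000000000000000000) (pA r s y t) := In.congr h88 (by unfold pA; ring)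
  have h90 : In (3189092653484275393/78125000000000000000) (25512749343048257821/625000000000000000000) ((px r s y t) * (pD r s y t)) := h18.mul h76 (by norm_num) (by norm_num) (by norm_num) (by norm_num)
  have h91 : In (81314092653484275393/78125000000000000000) (650512749343048257821/625000000000000000000) (1 + ((px r s y t) * (pD r s y t))) := (In.const (c := 1) (le_refl _) (le_refl _)).add h90 (by norm_num) (by norm_num)
  have h92 : In (11924192854651835583367/10000000000000000000000) (5962100194820456845891/5000000000000000000000) ((pD r s y t) ^ 2) := h76.pow 2 (by norm_num) (by norm_num) (by norm_num)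
  have h93 : In (44575025721656590527/1000000000000000000000) (445750539838757263003/10000000000000000000000) ((px r s y t) * ((pD r s y t) ^ 2)) := h18.mul h92 (by norm_num) (by norm_num) (by norm_num) (by norm_num)
  have h94 : In (428268179281198127619/10000000000000000000000) (428268456161770944003/10000000000000000000000) (((px r s y t) * ((pD r s y t) ^ 2)) / (1 + ((px r s y t) * (pD r s y t)))) := h93.div h91 (by norm_num) (by norm_num) (by norm_num) (by norm_num) (by norm_num)
  have h95 : In (1475201940944896301/200000000000000000000) (18440024811758865983/2500000000000000000000) (2 * (pT r s y t)) := (In.const (c := 2) (le_refl _) (le_refl _)).mul h65 (by norm_num) (by norm_num) (by norm_num) (by norm_num)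
  have h96 : In (34003449477618583/2500000000000000000000) (136013806023313041/10000000000000000000000) ((pT r s y t) ^ 2) := h65.pow 2 (by norm_num) (by norm_num) (by norm_num)
  have h97 : In (36948055422577644691/5000000000000000000000) (73896113053058776973/10000000000000000000000) ((2 * (pT r s y t)) + ((pT r s y t) ^ 2)) := h95.add h96 (by norm_num) (by norm_num)
  have h98 : In (1304959408533283803031/2500000000000000000000) (1304960036057753508063/2500000000000000000000) ((pD r s y t) / (1 + (pD r s y t))) := h76.div h77 (by norm_num) (by norm_num) (by norm_num) (by norm_num) (by norm_num)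
  have h99 : In (96759194895014621341/2000000000000000000000) (120949630550696713149/2500000000000000000000) (((pD r s y t) / (1 + (pD r s y t))) - (pY r s y t)) := h98.sub h69 (by norm_num) (by norm_num)
  have h100 : In (27763759156651081351/5000000000000000000000) (55530342921588724977/10000000000000000000000) ((((pD r s y t) / (1 + (pD r s y t))) - (pY r s y t)) - (((px r s y t) * ((pD r s y t) ^ 2)) / (1 + ((px r s y t) * (pD r s y t))))) := h99.sub h94 (by norm_num) (by norm_num)
  have h101 : In (43763783377051137732209/10000000000000000000000) (10940949453085411949657/2500000000000000000000) ((1 + (pD r s y t)) ^ 2) := h77.pow 2 (by norm_num) (by norm_num) (by norm_num)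
  have h102 : In (408994510883818753293/2500000000000000000000) (163597858663904684187/1000000000000000000000) ((px r s y t) * ((1 + (pD r s y t)) ^ 2)) := h18.mul h101 (by norm_num) (by norm_num) (by norm_num) (by norm_num)
  have h103 : In (6044620742266148403/5000000000000000000000) (12089245859066231861/10000000000000000000000) (((px r s y t) * ((1 + (pD r s y t)) ^ 2)) * ((2 * (pT r s y t)) + ((pT r s y t) ^ 2))) := h102.mul h97 (by norm_num) (by norm_num) (by norm_num) (by norm_num)
  have h104 : In (43438272454235930841/10000000000000000000000) (43441101437056428171/10000000000000000000000) (((((pD r s y t) / (1 + (pD r s y t))) - (pY r s y t)) - (((px r s y t) * ((pD r s y t) ^ 2)) / (1 + ((px r s y t) * (pD r s y t))))) - (((px r s y t) * ((1 + (pD r s y t)) ^ 2)) * ((2 * (pT r s y t)) + ((pT r s y t) ^ 2)))) := h100.sub h103 (by norm_num) (by norm_num)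
  have h105 : In (1085956811355898271/500000000000000000000) (10860275359264107043/5000000000000000000000) ((((((pD r s y t) / (1 + (pD r s y t))) - (pY r s y t)) - (((px r s y t) * ((pD r s y t) ^ 2)) / (1 + ((px r s y t) * (pD r s y t))))) - (((px r s y t) * ((1 + (pD r s y t)) ^ 2)) * ((2 * (pT r s y t)) + ((pT r s y t) ^ 2)))) / 2) := h104.div (In.const (c := 2) (le_refl _) (le_refl _)) (by norm_num) (by norm_num) (by norm_num) (by norm_num) (by norm_num)
  have h106 : In (1085956811355898271/500000000000000000000) (10860275359264107043/5000000000000000000000) (pK r s y t) := In.congr h105 (by unfold pK; ring)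
  have h107 : In (20142073821193908392769/5000000000000000000000) (805682954670377239551/200000000000000000000) (r / (px r s y t)) := hr.div h18 (by norm_num) (by norm_num) (by norm_num) (by norm_num) (by norm_num)
  have h108 : In (6966864699115307/5000000000000000) (1741716177606587/1250000000000000) (Real.log (r / px r s y t)) := In.log h107 (by norm_num) ((exp_hiR2 17 (6966864699115307/5000000000000000) (6966864699115307/10000000000000000) (25088639000796934487/12500000000000000000) (2014207382119388811/500000000000000000) (by norm_num) (by norm_num) (by norm_num) (by norm_num [tayR, Nat.factorial]) (by norm_num)).trans (by norm_num)) (le_trans (by norm_num) (exp_loR2 17 (1741716177606587/1250000000000000) (1741716177606587/2500000000000000) (25088639029174796937/12500000000000000000) (4028414773351890543/1000000000000000000) (by norm_num) (by norm_num) (by norm_num) (by norm_num [tayR, Nat.factorial]) (by norm_num)))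
  have h109 : In (2406544983044313667851/2500000000000000000000) (9626179932973265392707/10000000000000000000000) (1 - (px r s y t)) := (In.const (c := 1) (le_refl _) (le_refl _)).sub h18 (by norm_num) (by norm_num)
  have h110 : In (394526282272371/250000000000000) (394526282282371/250000000000000) (s - r) := hs.sub hr (by norm_num) (by norm_num)
  have h111 : In (8196943855598854415781/5000000000000000000000) (4098471928242222545763/2500000000000000000000) ((s - r) / (1 - (px r s y t))) := h110.div h109 (by norm_num) (by norm_num) (by norm_num) (by norm_num) (by norm_num)
  have h112 : In (4943234718292743/10000000000000000) (1235808679843289/2500000000000000) (Real.log ((s - r) / (1 - px r s y t))) := In.log h111 (by norm_num) ((exp_hiR 17 (4943234718292743/10000000000000000) (327877754223953823/200000000000000000) (by norm_num) (by norm_num) (by norm_num [tayR, Nat.factorial])).trans (by norm_num)) (le_trans (by norm_num) (exp_loR 17 (1235808679843289/2500000000000000) (204923596412111351/125000000000000000) (by norm_num) (by norm_num [tayR, Nat.factorial])))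
  have h113 : In (4103152614647489/10000000000000000) (1025788163039169/2500000000000000) (Real.log (pkap r s y t)) := In.log h61 (by norm_num) ((exp_hiR 17 (4103152614647489/10000000000000000) (1507292901583920103/1000000000000000000) (by norm_num) (by norm_num) (by norm_num [tayR, Nat.factorial])).trans (by norm_num)) (le_trans (by norm_num) (exp_loR 17 (1025788163039169/2500000000000000) (376823226809413311/250000000000000000) (by norm_num) (by norm_num [tayR, Nat.factorial])))
  have h114 : In (3690553797026231/5000000000000000) (7381109243280111/10000000000000000) (Real.log (1 + pD r s y t)) := In.log h77 (by norm_num) ((exp_hiR 17 (3690553797026231/5000000000000000) (1045989763059981451/500000000000000000) (by norm_num) (by norm_num) (by norm_num [tayR, Nat.factorial])).trans (by norm_num)) (le_trans (by norm_num) (exp_loR 17 (7381109243280111/10000000000000000) (2091979871135038913/1000000000000000000) (by norm_num) (by norm_num [tayR, Nat.factorial])))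
  have h115 : In (1045989763059982553721/1000000000000000000000) (1307487419459397940839/1250000000000000000000) ((1 + (pD r s y t)) / 2) := h77.div (In.const (c := 2) (le_refl _) (le_refl _)) (by norm_num) (by norm_num) (by norm_num) (by norm_num) (by norm_num)
  have h116 : In (449635788453009/10000000000000000) (224818718840329/5000000000000000) (Real.log ((1 + pD r s y t) / 2)) := In.log h115 (by norm_num) ((exp_hiR 17 (449635788453009/10000000000000000) (1045989763059981461/1000000000000000000) (by norm_num) (by norm_num) (by norm_num [tayR, Nat.factorial])).trans (by norm_num)) (le_trans (by norm_num) (exp_loR 17 (224818718840329/5000000000000000) (522994967783759733/500000000000000000) (by norm_num) (by norm_num [tayR, Nat.factorial])))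
  have h117 : In (-224818718840329/5000000000000000) (-449635788453009/10000000000000000) (-(Real.log ((1 + pD r s y t) / 2))) := h116.neg (by norm_num) (by norm_num)
  have h118 : In (-224818718840329/5000000000000000) (-449635788453009/10000000000000000) (Real.log ((1 + 1) / (1 + pD r s y t))) := In.congr h117 (by rw [← Real.log_inv]; congr 1; norm_num)
  have h119 : In (150590228038589/500000000000000) (150590228058589/500000000000000) (2 * r) := (In.const (c := 2) (le_refl _) (le_refl _)).mul hr (by norm_num) (by norm_num) (by norm_num) (by norm_num)
  have h120 : In (2029875813225251/1000000000000000) (2029875813285251/1000000000000000) (s + (2 * r)) := hs.add h119 (by norm_num) (by norm_num)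
  have h121 : In (35090368939096604001513/10000000000000000000000) (35090368940539796378459/10000000000000000000000) (s * (s + (2 * r))) := hs.mul h120 (by norm_num) (by norm_num) (by norm_num) (by norm_num)
  have h122 : In (451770684115767/500000000000000) (451770684175767/500000000000000) (6 * r) := (In.const (c := 6) (le_refl _) (le_refl _)).mul hr (by norm_num) (by norm_num) (by norm_num) (by norm_num)
  have h123 : In (15619477682530702078057/10000000000000000000000) (7809738842392922390153/5000000000000000000000) ((6 * r) * s) := h122.mul hs (by norm_num) (by norm_num) (by norm_num) (by norm_num)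
  have h124 : In (45503354060783738720217/10000000000000000000000) (4550335406373035956533/1000000000000000000000) ((s ^ 2) + ((6 * r) * s)) := h4.add h123 (by norm_num) (by norm_num)
  have h125 : In (34016125171071354927/500000000000000000000) (680322503602135372203/10000000000000000000000) (3 * (r ^ 2)) := (In.const (c := 3) (le_refl _) (le_refl _)).mul h3 (by norm_num) (by norm_num) (by norm_num) (by norm_num)
  have h126 : In (46183676564205165818757/10000000000000000000000) (46183676567332494937533/10000000000000000000000) (((s ^ 2) + ((6 * r) * s)) + (3 * (r ^ 2))) := h124.add h125 (by norm_num) (by norm_num)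
  have h127 : In (79837507252569738086191/10000000000000000000000) (79837507258899610945441/10000000000000000000000) (s * (((s ^ 2) + ((6 * r) * s)) + (3 * (r ^ 2)))) := hs.mul h126 (by norm_num) (by norm_num) (by norm_num) (by norm_num)
  have h128 : In (520870765757895059051/10000000000000000000000) (260435383856346840339/5000000000000000000000) ((px r s y t) * (Real.log (r / px r s y t))) := h18.mul h108 (by norm_num) (by norm_num) (by norm_num) (by norm_num)
  have h129 : In (4758446684527148741349/10000000000000000000000) (475844668596066051871/1000000000000000000000) ((1 - (px r s y t)) * (Real.log ((s - r) / (1 - px r s y t)))) := h109.mul h112 (by norm_num) (by norm_num) (by norm_num) (by norm_num)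
  have h130 : In (13198293625712609501/25000000000000000000) (1319829363418338549847/2500000000000000000000) (((px r s y t) * (Real.log (r / px r s y t))) + ((1 - (px r s y t)) * (Real.log ((s - r) / (1 - px r s y t))))) := h128.add h129 (by norm_num) (by norm_num)
  have h131 : In (38198293625712609501/25000000000000000000) (3819829363418338549847/2500000000000000000000) ((((px r s y t) * (Real.log (r / px r s y t))) + ((1 - (px r s y t)) * (Real.log ((s - r) / (1 - px r s y t))))) + 1) := h130.add (In.const (c := 1) (le_refl _) (le_refl _)) (by norm_num) (by norm_num)
  have h132 : In (-5019090303489215499/25000000000000000000) (-501909029451843950153/2500000000000000000000) (((((px r s y t) * (Real.log (r / px r s y t))) + ((1 - (px r s y t)) * (Real.log ((s - r) / (1 - px r s y t))))) + 1) - s) := h131.sub hs (by norm_num) (by norm_num)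
  have h133 : In (7200971976567716245771/10000000000000000000000) (7200971977565684314179/10000000000000000000000) (y * (s * (s + (2 * r)))) := hy.mul h121 (by norm_num) (by norm_num) (by norm_num) (by norm_num)
  have h134 : In (720097197656771624577/2000000000000000000000) (360048598878284215709/1000000000000000000000) ((y * (s * (s + (2 * r)))) / 2) := h133.div (In.const (c := 2) (le_refl _) (le_refl _)) (by norm_num) (by norm_num) (by norm_num) (by norm_num) (by norm_num)
  have h135 : In (318569973377634384657/2000000000000000000000) (796424935487733178239/5000000000000000000000) ((((((px r s y t) * (Real.log (r / px r s y t))) + ((1 - (px r s y t)) * (Real.log ((s - r) / (1 - px r s y t))))) + 1) - s) + ((y * (s * (s + (2 * r)))) / 2)) := h132.add h134 (by norm_num) (by norm_num)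
  have h136 : In (10747699214033614203/1250000000000000000000) (85981595315836062179/10000000000000000000000) (t * (s * (((s ^ 2) + ((6 * r) * s)) + (3 * (r ^ 2))))) := ht.mul h127 (by norm_num) (by norm_num) (by norm_num) (by norm_num)
  have h137 : In (3582566404677871401/1250000000000000000000) (1433026588597267703/500000000000000000000) ((t * (s * (((s ^ 2) + ((6 * r) * s)) + (3 * (r ^ 2))))) / 3) := h136.div (In.const (c := 3) (le_refl _) (le_refl _)) (by norm_num) (by norm_num) (by norm_num) (by norm_num) (by norm_num)
  have h138 : In (1621510398125594894493/10000000000000000000000) (810755201373705855269/5000000000000000000000) (((((((px r s y t) * (Real.log (r / px r s y t))) + ((1 - (px r s y t)) * (Real.log ((s - r) / (1 - px r s y t))))) + 1) - s) + ((y * (s * (s + (2 * r)))) / 2)) + ((t * (s * (((s ^ 2) + ((6 * r) * s)) + (3 * (r ^ 2))))) / 3)) := h135.add h137 (by norm_num) (by norm_num)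
  have h139 : In (1621510398125594894493/10000000000000000000000) (810755201373705855269/5000000000000000000000) (cf (px r s y t) r s y t) := In.congr h138 (by unfold cf; ring)
  have h140 : In (373820067026734607293/5000000000000000000000) (93455016955686332149/1250000000000000000000) (2 * (px r s y t)) := (In.const (c := 2) (le_refl _) (le_refl _)).mul h18 (by norm_num) (by norm_num) (by norm_num) (by norm_num)
  have h141 : In (-4626179932973265392707/5000000000000000000000) (-1156544983044313667851/1250000000000000000000) ((2 * (px r s y t)) - 1) := h140.sub (In.const (c := 1) (le_refl _) (le_refl _)) (by norm_num) (by norm_num)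
  have h142 : In (11924192854651835583367/10000000000000000000000) (5962100194820456845891/5000000000000000000000) ((pD r s y t) ^ 2) := h76.pow 2 (by norm_num) (by norm_num) (by norm_num)
  have h143 : In (-3538691117297905053423/10000000000000000000000) (-3538686017919540074421/10000000000000000000000) ((Real.log (1 + pD r s y t)) - (pD r s y t)) := h114.sub h76 (by norm_num) (by norm_num)
  have h144 : In (5962096427325917791683/10000000000000000000000) (5962100194820456845891/10000000000000000000000) (((pD r s y t) ^ 2) / 2) := h142.div (In.const (c := 2) (le_refl _) (le_refl _)) (by norm_num) (by norm_num) (by norm_num) (by norm_num) (by norm_num)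
  have h145 : In (-4750395656059180949657/5000000000000000000000) (-1187597805655682233263/1250000000000000000000) (((Real.log (1 + pD r s y t)) - (pD r s y t)) - (((pD r s y t) ^ 2) / 2)) := h143.sub h144 (by norm_num) (by norm_num)
  have h146 : In (-71031729053316712543/2000000000000000000000) (-17757915652440402893/500000000000000000000) ((px r s y t) * (((Real.log (1 + pD r s y t)) - (pD r s y t)) - (((pD r s y t) ^ 2) / 2))) := h18.mulN h145 (by norm_num) (by norm_num) (by norm_num) (by norm_num)
  have h147 : In (10491526945693545324983/10000000000000000000000) (2622882597853387117857/2500000000000000000000) ((pD r s y t) / (1 + ((px r s y t) * (pD r s y t)))) := h76.div h91 (by norm_num) (by norm_num) (by norm_num) (by norm_num) (by norm_num)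
  have h148 : In (5245763472846772662491/10000000000000000000000) (2622882597853387117857/5000000000000000000000) (((pD r s y t) / (1 + ((px r s y t) * (pD r s y t)))) / 2) := h147.div (In.const (c := 2) (le_refl _) (le_refl _)) (by norm_num) (by norm_num) (by norm_num) (by norm_num) (by norm_num)
  have h149 : In (-359845923571558093159/10000000000000000000000) (-359845922716034415553/10000000000000000000000) (((px r s y t) ^ 2) - (px r s y t)) := h70.sub h18 (by norm_num) (by norm_num)
  have h150 : In (-4815022443446524128783/5000000000000000000000) (-4815022382550411359673/5000000000000000000000) ((1 + ((px r s y t) * (pD r s y t))) * ((2 * (px r s y t)) - 1)) := h91.mulN h141 (by norm_num) (by norm_num) (by norm_num) (by norm_num)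
  have h151 : In (-10515815174614089960919/10000000000000000000000) (-10515811719108847090199/10000000000000000000000) ((pD r s y t) * ((1 + ((px r s y t) * (pD r s y t))) * ((2 * (px r s y t)) - 1))) := h76.mulN h150 (by norm_num) (by norm_num) (by norm_num) (by norm_num)
  have h152 : In (-214543745103133373157/5000000000000000000000) (-429087218042613422611/10000000000000000000000) (((pD r s y t) ^ 2) * (((px r s y t) ^ 2) - (px r s y t))) := h142.mulN h149 (by norm_num) (by norm_num) (by norm_num) (by norm_num)
  have h153 : In (-2521681989142869134577/2500000000000000000000) (-2017344845780516068777/2000000000000000000000) (((pD r s y t) * ((1 + ((px r s y t) * (pD r s y t))) * ((2 * (px r s y t)) - 1))) - (((pD r s y t) ^ 2) * (((px r s y t) ^ 2) - (px r s y t)))) := h151.sub h152 (by norm_num) (by norm_num)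
  have h154 : In (10833070758394962586437/10000000000000000000000) (2166614205736199841727/2000000000000000000000) ((1 + ((px r s y t) * (pD r s y t))) ^ 2) := h91.pow 2 (by norm_num) (by norm_num) (by norm_num)
  have h155 : In (-9311051484413949436363/10000000000000000000000) (-581940488193373608793/625000000000000000000) ((((pD r s y t) * ((1 + ((px r s y t) * (pD r s y t))) * ((2 * (px r s y t)) - 1))) - (((pD r s y t) ^ 2) * (((px r s y t) ^ 2) - (px r s y t)))) / ((1 + ((px r s y t) * (pD r s y t))) ^ 2)) := h153.divN h154 (by norm_num) (by norm_num) (by norm_num) (by norm_num) (by norm_num)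
  have h156 : In (-2327762871103487359091/5000000000000000000000) (-581940488193373608793/1250000000000000000000) (((((pD r s y t) * ((1 + ((px r s y t) * (pD r s y t))) * ((2 * (px r s y t)) - 1))) - (((pD r s y t) ^ 2) * (((px r s y t) ^ 2) - (px r s y t)))) / ((1 + ((px r s y t) * (pD r s y t))) ^ 2)) / 2) := h155.divN (In.const (c := 2) (le_refl _) (le_refl _)) (by norm_num) (by norm_num) (by norm_num) (by norm_num) (by norm_num)
  have h157 : In (11444117351292530670711/1250000000000000000000) (45776492053921140819773/5000000000000000000000) ((1 + (pD r s y t)) ^ 3) := h77.pow 3 (by norm_num) (by norm_num) (by norm_num)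
  have h158 : In (127937397355581287363/10000000000000000000000) (399804566249446653/31250000000000000000) (((px r s y t) ^ 2) * ((1 + (pD r s y t)) ^ 3)) := h70.mul h157 (by norm_num) (by norm_num) (by norm_num) (by norm_num)
  have h159 : In (1181759512028589/12500000000000000000) (236352027413585899/2500000000000000000000) ((((px r s y t) ^ 2) * ((1 + (pD r s y t)) ^ 3)) * ((2 * (pT r s y t)) + ((pT r s y t) ^ 2))) := h158.mul h97 (by norm_num) (by norm_num) (by norm_num) (by norm_num)
  have h160 : In (19103925107735113671/39062500000000000000) (2445303441328983088927/5000000000000000000000) (((px r s y t) * (((Real.log (1 + pD r s y t)) - (pD r s y t)) - (((pD r s y t) ^ 2) / 2))) + (((pD r s y t) / (1 + ((px r s y t) * (pD r s y t)))) / 2)) := h146.add h148 (by norm_num) (by norm_num)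
  have h161 : In (117539542686607190797/5000000000000000000000) (23508297711097730751/1000000000000000000000) ((((px r s y t) * (((Real.log (1 + pD r s y t)) - (pD r s y t)) - (((pD r s y t) ^ 2) / 2))) + (((pD r s y t) / (1 + ((px r s y t) * (pD r s y t)))) / 2)) + (((((pD r s y t) * ((1 + ((px r s y t) * (pD r s y t))) * ((2 * (px r s y t)) - 1))) - (((pD r s y t) ^ 2) * (((px r s y t) ^ 2) - (px r s y t)))) / ((1 + ((px r s y t) * (pD r s y t))) ^ 2)) / 2)) := h160.add h156 (by norm_num) (by norm_num)
  have h162 : In (117066838631780018999/5000000000000000000000) (23413756950135443631/1000000000000000000000) (((((px r s y t) * (((Real.log (1 + pD r s y t)) - (pD r s y t)) - (((pD r s y t) ^ 2) / 2))) + (((pD r s y t) / (1 + ((px r s y t) * (pD r s y t)))) / 2)) + (((((pD r s y t) * ((1 + ((px r s y t) * (pD r s y t))) * ((2 * (px r s y t)) - 1))) - (((pD r s y t) ^ 2) * (((px r s y t) ^ 2) - (px r s y t)))) / ((1 + ((px r s y t) * (pD r s y t))) ^ 2)) / 2)) - ((((px r s y t) ^ 2) * ((1 + (pD r s y t)) ^ 3)) * ((2 * (pT r s y t)) + ((pT r s y t) ^ 2)))) := h161.sub h159 (by norm_num) (by norm_num)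
  have h163 : In (117066838631780018999/5000000000000000000000) (23413756950135443631/1000000000000000000000) (cEx (px r s y t) (pD r s y t) (pT r s y t)) := In.congr h162 (by unfold cEx; ring)
  have h164 : In (35844334257627385517/5000000000000000000000) (71697472573295378311/10000000000000000000000) ((pA r s y t) ^ 2) := h89.pow 2 (by norm_num) (by norm_num) (by norm_num)
  have h165 : In (35844334257627385517/10000000000000000000000) (8962184071661922289/2500000000000000000000) (((pA r s y t) ^ 2) / 2) := h164.div (In.const (c := 2) (le_refl _) (le_refl _)) (by norm_num) (by norm_num) (by norm_num) (by norm_num) (by norm_num)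
  have h166 : In (1031312236974718369/10000000000000000000000) (1035715365890346449/10000000000000000000000) ((pT r s y t) - (((pA r s y t) ^ 2) / 2)) := h65.sub h165 (by norm_num) (by norm_num)
  have h167 : In (1561301386016233447/5000000000000000000000) (3122794602106581783/10000000000000000000000) ((pA r s y t) * (pT r s y t)) := h89.mul h65 (by norm_num) (by norm_num) (by norm_num) (by norm_num)
  have h168 : In (-1045741182565931707/5000000000000000000000) (-417377481228424089/2000000000000000000000) (((pT r s y t) - (((pA r s y t) ^ 2) / 2)) - ((pA r s y t) * (pT r s y t))) := h166.sub h167 (by norm_num) (by norm_num)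
  have hG : cG (pA r s y t) (pT r s y t) = pT r s y t - pA r s y t ^ 2 / 2 - pA r s y t * pT r s y t := by unfold cG; linarith [hM]
  have h169 : In (-1045741182565931707/5000000000000000000000) (-417377481228424089/2000000000000000000000) (cG (pA r s y t) (pT r s y t)) := In.congr h168 (by rw [hG])
  have h170 : In (11444117351292530670711/1250000000000000000000) (45776492053921140819773/5000000000000000000000) ((1 + (pD r s y t)) ^ 3) := h77.pow 3 (by norm_num) (by norm_num) (by norm_num)
  have h171 : In (43763783377051137732209/10000000000000000000000) (10940949453085411949657/2500000000000000000000) ((1 + (pD r s y t)) ^ 2) := h77.pow 2 (by norm_num) (by norm_num) (by norm_num)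
  have h172 : In (10833070758394962586437/10000000000000000000000) (2166614205736199841727/2000000000000000000000) ((1 + ((px r s y t) * (pD r s y t))) ^ 2) := h91.pow 2 (by norm_num) (by norm_num) (by norm_num)
  have h173 : In (16694439413964812154943/10000000000000000000000) (16694439475123927815317/10000000000000000000000) ((cf (px r s y t) r s y t) + (pkap r s y t)) := h139.add h61 (by norm_num) (by norm_num)
  have h174 : In (6694439413964812154943/10000000000000000000000) (6694439475123927815317/10000000000000000000000) (((cf (px r s y t) r s y t) + (pkap r s y t)) - 1) := h173.sub (In.const (c := 1) (le_refl _) (le_refl _)) (by norm_num) (by norm_num)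
  have h175 : In (2591286761808136154943/10000000000000000000000) (2591286860476438815317/10000000000000000000000) ((((cf (px r s y t) r s y t) + (pkap r s y t)) - 1) - (Real.log (pkap r s y t))) := h174.sub h113 (by norm_num) (by norm_num)
  have h176 : In (592005202753528397457/2500000000000000000000) (236802082982903105271/1000000000000000000000) ((pY r s y t) / 2) := h69.div (In.const (c := 2) (le_refl _) (le_refl _)) (by norm_num) (by norm_num) (by norm_num) (by norm_num) (by norm_num)
  have h177 : In (223265931979105102233/10000000000000000000000) (223266049462325225489/10000000000000000000000) (((((cf (px r s y t) r s y t) + (pkap r s y t)) - 1) - (Real.log (pkap r s y t))) - ((pY r s y t) / 2)) := h175.sub h176 (by norm_num) (by norm_num)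
  have h178 : In (1475201940944896301/200000000000000000000) (18440024811758865983/2500000000000000000000) (2 * (pT r s y t)) := (In.const (c := 2) (le_refl _) (le_refl _)).mul h65 (by norm_num) (by norm_num) (by norm_num) (by norm_num)
  have h179 : In (24586699015748271683/10000000000000000000000) (24586699749011821311/10000000000000000000000) ((2 * (pT r s y t)) / 3) := h178.div (In.const (c := 3) (le_refl _) (le_refl _)) (by norm_num) (by norm_num) (by norm_num) (by norm_num) (by norm_num)
  have h180 : In (61963157748713343479/2500000000000000000000) (619631873028342617/25000000000000000000) ((((((cf (px r s y t) r s y t) + (pkap r s y t)) - 1) - (Real.log (pkap r s y t))) - ((pY r s y t) / 2)) + ((2 * (pT r s y t)) / 3)) := h177.add h179 (by norm_num) (by norm_num)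
  have h181 : In (-5962100194820456845891/5000000000000000000000) (-11924192854651835583367/10000000000000000000000) (-((pD r s y t) ^ 2)) := h142.neg (by norm_num) (by norm_num)
  have h182 : In (-5503610497697706279673/5000000000000000000000) (-440288550608854927819/400000000000000000000) ((-((pD r s y t) ^ 2)) / ((1 + ((px r s y t) * (pD r s y t))) ^ 2)) := h181.divN h172 (by norm_num) (by norm_num) (by norm_num) (by norm_num) (by norm_num)
  have h183 : In (80849334685848383849/2500000000000000000000) (80849363769300119699/2500000000000000000000) (((1 + (pD r s y t)) ^ 2) * ((2 * (pT r s y t)) + ((pT r s y t) ^ 2))) := h171.mul h97 (by norm_num) (by norm_num) (by norm_num) (by norm_num)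
  have h184 : In (-5665309225236306519071/5000000000000000000000) (-11330611103964766730871/10000000000000000000000) (((-((pD r s y t) ^ 2)) / ((1 + ((px r s y t) * (pD r s y t))) ^ 2)) - (((1 + (pD r s y t)) ^ 2) * ((2 * (pT r s y t)) + ((pT r s y t) ^ 2)))) := h182.sub h183 (by norm_num) (by norm_num)
  have h185 : In (29233623668530707443/10000000000000000000000) (7308407153580248361/2500000000000000000000) (((px r s y t) ^ 2) * (1 + (pD r s y t))) := h70.mul h77 (by norm_num) (by norm_num) (by norm_num) (by norm_num)
  have h186 : In (14616811834265353721/10000000000000000000000) (7308407153580248361/5000000000000000000000) ((((px r s y t) ^ 2) * (1 + (pD r s y t))) / 2) := h185.div (In.const (c := 2) (le_refl _) (le_refl _)) (by norm_num) (by norm_num) (by norm_num) (by norm_num) (by norm_num)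
  have h187 : In (-16561754587584478829/10000000000000000000000) (-2070217630923632831/1250000000000000000000) (((((px r s y t) ^ 2) * (1 + (pD r s y t))) / 2) * (((-((pD r s y t) ^ 2)) / ((1 + ((px r s y t) * (pD r s y t))) ^ 2)) - (((1 + (pD r s y t)) ^ 2) * ((2 * (pT r s y t)) + ((pT r s y t) ^ 2))))) := h186.mulN h184 (by norm_num) (by norm_num) (by norm_num) (by norm_num)
  have h188 : In (231290876407268895087/10000000000000000000000) (28911376020493498019/1250000000000000000000) (((((((cf (px r s y t) r s y t) + (pkap r s y t)) - 1) - (Real.log (pkap r s y t))) - ((pY r s y t) / 2)) + ((2 * (pT r s y t)) / 3)) + (((((px r s y t) ^ 2) * (1 + (pD r s y t))) / 2) * (((-((pD r s y t) ^ 2)) / ((1 + ((px r s y t) * (pD r s y t))) ^ 2)) - (((1 + (pD r s y t)) ^ 2) * ((2 * (pT r s y t)) + ((pT r s y t) ^ 2)))))) := h180.add h187 (by norm_num) (by norm_num)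
  have h189 : In (373820067026734607293/5000000000000000000000) (93455016955686332149/1250000000000000000000) (2 * (px r s y t)) := (In.const (c := 2) (le_refl _) (le_refl _)).mul h18 (by norm_num) (by norm_num) (by norm_num) (by norm_num)
  have h190 : In (782023926672721857597/5000000000000000000000) (195506014327879363433/1250000000000000000000) ((2 * (px r s y t)) * (1 + (pD r s y t))) := h189.mul h77 (by norm_num) (by norm_num) (by norm_num) (by norm_num)
  have h191 : In (339697683925411133/1000000000000000000000) (3397198639988805941/10000000000000000000000) (((2 * (px r s y t)) * (1 + (pD r s y t))) * (pK r s y t)) := h190.mul h106 (by norm_num) (by norm_num) (by norm_num) (by norm_num)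
  have h192 : In (234687853246523006417/10000000000000000000000) (234688206803936790093/10000000000000000000000) ((((((((cf (px r s y t) r s y t) + (pkap r s y t)) - 1) - (Real.log (pkap r s y t))) - ((pY r s y t) / 2)) + ((2 * (pT r s y t)) / 3)) + (((((px r s y t) ^ 2) * (1 + (pD r s y t))) / 2) * (((-((pD r s y t) ^ 2)) / ((1 + ((px r s y t) * (pD r s y t))) ^ 2)) - (((1 + (pD r s y t)) ^ 2) * ((2 * (pT r s y t)) + ((pT r s y t) ^ 2)))))) + (((2 * (px r s y t)) * (1 + (pD r s y t))) * (pK r s y t))) := h188.add h191 (by norm_num) (by norm_num)
  have h193 : In (550283745168570107/10000000000000000000000) (110905908075350419/2000000000000000000000) (((((((((cf (px r s y t) r s y t) + (pkap r s y t)) - 1) - (Real.log (pkap r s y t))) - ((pY r s y t) / 2)) + ((2 * (pT r s y t)) / 3)) + (((((px r s y t) ^ 2) * (1 + (pD r s y t))) / 2) * (((-((pD r s y t) ^ 2)) / ((1 + ((px r s y t) * (pD r s y t))) ^ 2)) - (((1 + (pD r s y t)) ^ 2) * ((2 * (pT r s y t)) + ((pT r s y t) ^ 2)))))) + (((2 * (px r s y t)) * (1 + (pD r s y t))) * (pK r s y t))) - (cEx (px r s y t) (pD r s y t) (pT r s y t))) := h192.sub h163 (by norm_num) (by norm_num)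
  have h194 : In (275141872584285053/10000000000000000000000) (17329048136773503/625000000000000000000) ((((((((((cf (px r s y t) r s y t) + (pkap r s y t)) - 1) - (Real.log (pkap r s y t))) - ((pY r s y t) / 2)) + ((2 * (pT r s y t)) / 3)) + (((((px r s y t) ^ 2) * (1 + (pD r s y t))) / 2) * (((-((pD r s y t) ^ 2)) / ((1 + ((px r s y t) * (pD r s y t))) ^ 2)) - (((1 + (pD r s y t)) ^ 2) * ((2 * (pT r s y t)) + ((pT r s y t) ^ 2)))))) + (((2 * (px r s y t)) * (1 + (pD r s y t))) * (pK r s y t))) - (cEx (px r s y t) (pD r s y t) (pT r s y t))) / 2) := h193.div (In.const (c := 2) (le_refl _) (le_refl _)) (by norm_num) (by norm_num) (by norm_num) (by norm_num) (by norm_num)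
  have h195 : In (3493536062796808859/5000000000000000000000) (698707215535009587/1000000000000000000000) (((px r s y t) ^ 2) / 2) := h70.div (In.const (c := 2) (le_refl _) (le_refl _)) (by norm_num) (by norm_num) (by norm_num) (by norm_num) (by norm_num)
  have h196 : In (63968698677790643677/10000000000000000000000) (399804566249446653/62500000000000000000) ((((px r s y t) ^ 2) / 2) * ((1 + (pD r s y t)) ^ 3)) := h195.mul h170 (by norm_num) (by norm_num) (by norm_num) (by norm_num)
  have h197 : In (-1672368399619823/1250000000000000000000) (-667477358289907/500000000000000000000) (((((px r s y t) ^ 2) / 2) * ((1 + (pD r s y t)) ^ 3)) * (cG (pA r s y t) (pT r s y t))) := h196.mulN h169 (by norm_num) (by norm_num) (by norm_num) (by norm_num)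
  have h198 : In (261762925387326469/10000000000000000000000) (65978805755644477/2500000000000000000000) (((((((((((cf (px r s y t) r s y t) + (pkap r s y t)) - 1) - (Real.log (pkap r s y t))) - ((pY r s y t) / 2)) + ((2 * (pT r s y t)) / 3)) + (((((px r s y t) ^ 2) * (1 + (pD r s y t))) / 2) * (((-((pD r s y t) ^ 2)) / ((1 + ((px r s y t) * (pD r s y t))) ^ 2)) - (((1 + (pD r s y t)) ^ 2) * ((2 * (pT r s y t)) + ((pT r s y t) ^ 2)))))) + (((2 * (px r s y t)) * (1 + (pD r s y t))) * (pK r s y t))) - (cEx (px r s y t) (pD r s y t) (pT r s y t))) / 2) + (((((px r s y t) ^ 2) / 2) * ((1 + (pD r s y t)) ^ 3)) * (cG (pA r s y t) (pT r s y t)))) := h194.add h197 (by norm_num) (by norm_num)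
  have h199 : In (255022374909/2500000000000000000000) (510044757421/5000000000000000000000) ((px r s y t) ^ 7) := h18.pow 7 (by norm_num) (by norm_num) (by norm_num)
  have h200 : In (255022374909/5000000000000000000000) (510044757421/10000000000000000000000) (((px r s y t) ^ 7) / 2) := h199.div (In.const (c := 2) (le_refl _) (le_refl _)) (by norm_num) (by norm_num) (by norm_num) (by norm_num) (by norm_num)
  have h201 : In (5749154029210939313171/2000000000000000000000) (5749175826852984459191/2000000000000000000000) ((pD r s y t) ^ 12) := h76.pow 12 (by norm_num) (by norm_num) (by norm_num)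
  have h202 : In (1466162914247/10000000000000000000000) (1466168494989/10000000000000000000000) ((((px r s y t) ^ 7) / 2) * ((pD r s y t) ^ 12)) := h200.mul h201 (by norm_num) (by norm_num) (by norm_num) (by norm_num)
  have h203 : In (65441097887560179/2500000000000000000000) (263916689191072897/10000000000000000000000) ((((((((((((cf (px r s y t) r s y t) + (pkap r s y t)) - 1) - (Real.log (pkap r s y t))) - ((pY r s y t) / 2)) + ((2 * (pT r s y t)) / 3)) + (((((px r s y t) ^ 2) * (1 + (pD r s y t))) / 2) * (((-((pD r s y t) ^ 2)) / ((1 + ((px r s y t) * (pD r s y t))) ^ 2)) - (((1 + (pD r s y t)) ^ 2) * ((2 * (pT r s y t)) + ((pT r s y t) ^ 2)))))) + (((2 * (px r s y t)) * (1 + (pD r s y t))) * (pK r s y t))) - (cEx (px r s y t) (pD r s y t) (pT r s y t))) / 2) + (((((px r s y t) ^ 2) / 2) * ((1 + (pD r s y t)) ^ 3)) * (cG (pA r s y t) (pT r s y t)))) + ((((px r s y t) ^ 7) / 2) * ((pD r s y t) ^ 12))) := h198.add h202 (by norm_num) (by norm_num)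
  have h204 : In (91247939882773/1250000000000000000000) (729983526834303/10000000000000000000000) ((px r s y t) ^ 5) := h18.pow 5 (by norm_num) (by norm_num) (by norm_num)
  have h205 : In (7603994990231/1250000000000000000000) (30415980284763/5000000000000000000000) (((px r s y t) ^ 5) / 12) := h204.div (In.const (c := 12) (le_refl _) (le_refl _)) (by norm_num) (by norm_num) (by norm_num) (by norm_num) (by norm_num)
  have h206 : In (689891005954726708691/312500000000000000000) (11038287483525087187943/5000000000000000000000) ((pD r s y t) ^ 9) := h76.pow 9 (by norm_num) (by norm_num) (by norm_num)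
  have h207 : In (6714787523949/500000000000000000000) (134296133790579/10000000000000000000000) ((((px r s y t) ^ 5) / 12) * ((pD r s y t) ^ 9)) := h205.mul h206 (by norm_num) (by norm_num) (by norm_num) (by norm_num)
  have h208 : In (261630095416450137/10000000000000000000000) (263782393440593917/10000000000000000000000) (((((((((((((cf (px r s y t) r s y t) + (pkap r s y t)) - 1) - (Real.log (pkap r s y t))) - ((pY r s y t) / 2)) + ((2 * (pT r s y t)) / 3)) + (((((px r s y t) ^ 2) * (1 + (pD r s y t))) / 2) * (((-((pD r s y t) ^ 2)) / ((1 + ((px r s y t) * (pD r s y t))) ^ 2)) - (((1 + (pD r s y t)) ^ 2) * ((2 * (pT r s y t)) + ((pT r s y t) ^ 2)))))) + (((2 * (px r s y t)) * (1 + (pD r s y t))) * (pK r s y t))) - (cEx (px r s y t) (pD r s y t) (pT r s y t))) / 2) + (((((px r s y t) ^ 2) / 2) * ((1 + (pD r s y t)) ^ 3)) * (cG (pA r s y t) (pT r s y t)))) + ((((px r s y t) ^ 7) / 2) * ((pD r s y t) ^ 12))) - ((((px r s y t) ^ 5) / 12) * ((pD r s y t) ^ 9))) := h203.sub h207 (by norm_num) (by norm_num)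
  have h209 : In (545989763059982553721/1000000000000000000000) (682487419459397940839/1250000000000000000000) ((pD r s y t) / 2) := h76.div (In.const (c := 2) (le_refl _) (le_refl _)) (by norm_num) (by norm_num) (by norm_num) (by norm_num) (by norm_num)
  have h210 : In (-218385509023190683063/400000000000000000000) (-5459633848206384943293/10000000000000000000000) ((((((((((((((cf (px r s y t) r s y t) + (pkap r s y t)) - 1) - (Real.log (pkap r s y t))) - ((pY r s y t) / 2)) + ((2 * (pT r s y t)) / 3)) + (((((px r s y t) ^ 2) * (1 + (pD r s y t))) / 2) * (((-((pD r s y t) ^ 2)) / ((1 + ((px r s y t) * (pD r s y t))) ^ 2)) - (((1 + (pD r s y t)) ^ 2) * ((2 * (pT r s y t)) + ((pT r s y t) ^ 2)))))) + (((2 * (px r s y t)) * (1 + (pD r s y t))) * (pK r s y t))) - (cEx (px r s y t) (pD r s y t) (pT r s y t))) / 2) + (((((px r s y t) ^ 2) / 2) * ((1 + (pD r s y t)) ^ 3)) * (cG (pA r s y t) (pT r s y t)))) + ((((px r s y t) ^ 7) / 2) * ((pD r s y t) ^ 12))) - ((((px r s y t) ^ 5) / 12) * ((pD r s y t) ^ 9))) - ((pD r s y t) / 2)) := h208.sub h209 (by norm_num) (by norm_num)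
  have h211 : In (10491526945693545324983/10000000000000000000000) (2622882597853387117857/2500000000000000000000) ((pD r s y t) / (1 + ((px r s y t) * (pD r s y t)))) := h76.div h91 (by norm_num) (by norm_num) (by norm_num) (by norm_num) (by norm_num)
  have h212 : In (5245763472846772662491/10000000000000000000000) (2622882597853387117857/5000000000000000000000) (((pD r s y t) / (1 + ((px r s y t) * (pD r s y t)))) / 2) := h211.div (In.const (c := 2) (le_refl _) (le_refl _)) (by norm_num) (by norm_num) (by norm_num) (by norm_num) (by norm_num)
  have h213 : In (-53468563183248603521/2500000000000000000000) (-213868652499610707579/10000000000000000000000) (((((((((((((((cf (px r s y t) r s y t) + (pkap r s y t)) - 1) - (Real.log (pkap r s y t))) - ((pY r s y t) / 2)) + ((2 * (pT r s y t)) / 3)) + (((((px r s y t) ^ 2) * (1 + (pD r s y t))) / 2) * (((-((pD r s y t) ^ 2)) / ((1 + ((px r s y t) * (pD r s y t))) ^ 2)) - (((1 + (pD r s y t)) ^ 2) * ((2 * (pT r s y t)) + ((pT r s y t) ^ 2)))))) + (((2 * (px r s y t)) * (1 + (pD r s y t))) * (pK r s y t))) - (cEx (px r s y t) (pD r s y t) (pT r s y t))) / 2) + (((((px r s y t) ^ 2) / 2) * ((1 + (pD r s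 y t)) ^ 3)) * (cG (pA r s y t) (pT r s y t)))) + ((((px r s y t) ^ 7) / 2) * ((pD r s y t) ^ 12))) - ((((px r s y t) ^ 5) / 12) * ((pD r s y t) ^ 9))) - ((pD r s y t) / 2)) + (((pD r s y t) / (1 + ((px r s y t) * (pD r s y t)))) / 2)) := h210.add h212 (by norm_num) (by norm_num)
  have h214 : In (5962096427325917791683/10000000000000000000000) (5962100194820456845891/10000000000000000000000) (((pD r s y t) ^ 2) / 2) := h142.div (In.const (c := 2) (le_refl _) (le_refl _)) (by norm_num) (by norm_num) (by norm_num) (by norm_num) (by norm_num)
  have h215 : In (2110236461065696108263/1250000000000000000000) (8440949453085411949657/5000000000000000000000) ((pD r s y t) + (((pD r s y t) ^ 2) / 2)) := h76.add h214 (by norm_num) (by norm_num)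
  have h216 : In (-940632468936671020219/10000000000000000000000) (-188125772730900529353/2000000000000000000000) ((1 + (pD r s y t)) * (Real.log ((1 + 1) / (1 + pD r s y t)))) := h77.mulN h118 (by norm_num) (by norm_num) (by norm_num) (by norm_num)
  have h217 : In (3188251843917779569177/2000000000000000000000) (15941270042516321252549/10000000000000000000000) (((pD r s y t) + (((pD r s y t) ^ 2) / 2)) + ((1 + (pD r s y t)) * (Real.log ((1 + 1) / (1 + pD r s y t))))) := h215.add h216 (by norm_num) (by norm_num)
  have h218 : In (595916258995727281019/10000000000000000000000) (595916664847414951859/10000000000000000000000) ((px r s y t) * (((pD r s y t) + (((pD r s y t) ^ 2) / 2)) + ((1 + (pD r s y t)) * (Real.log ((1 + 1) / (1 + pD r s y t)))))) := h18.mul h217 (by norm_num) (by norm_num) (by norm_num) (by norm_num)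
  have h219 : In (76408401252546573387/2000000000000000000000) (9551200308695106107/250000000000000000000) ((((((((((((((((cf (px r s y t) r s y t) + (pkap r s y t)) - 1) - (Real.log (pkap r s y t))) - ((pY r s y t) / 2)) + ((2 * (pT r s y t)) / 3)) + (((((px r s y t) ^ 2) * (1 + (pD r s y t))) / 2) * (((-((pD r s y t) ^ 2)) / ((1 + ((px r s y t) * (pD r s y t))) ^ 2)) - (((1 + (pD r s y t)) ^ 2) * ((2 * (pT r s y t)) + ((pT r s y t) ^ 2)))))) + (((2 * (px r s y t)) * (1 + (pD r s y t))) * (pK r s y t))) - (cEx (px r s y t) (pD r s y t) (pT r s y t))) / 2) + (((((px r s y t) ^ 2) / 2) * ((1 + (pD r s y t)) ^ 3)) * (cG (pA r s y t) (pT r s y t)))) + ((((px r s y t) ^ 7) / 2) * ((pD r s y t) ^ 12))) - ((((px r s y t) ^ 5) / 12) * ((pD r s y t) ^ 9))) - ((pD r s y t) / 2)) + (((pD r s y t) / (1 + ((px r s y t) * (pD r s y t)))) / 2)) + ((px r s y t) * (((pD r s y t) + (((pD r s y t) ^ 2) / 2)) + ((1 + (pD r s y t)) * (Real.log ((1 + 1) / (1 + pD r s y t))))))) := h213.add h218 (by norm_num) (by norm_num)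
  have h220 : In (76408401252546573387/2000000000000000000000) (9551200308695106107/250000000000000000000) (pBx 1 r s y t) := In.congr h219 (by unfold pBx cBx; ring)
  refine ⟨h18, h220, ?_, ?_⟩
  · rw [le_div_iff₀ (lt_of_lt_of_le (by norm_num) h18.1)]
    refine (mul_le_mul_of_nonneg_left h18.2 (by norm_num)).trans ?_
    refine le_trans ?_ (Real.exp_le_exp.2 h220.1)
    refine exp_loR 8 _ _ (by norm_num) ?_
    norm_num [tayR, Nat.factorial]
  · rw [div_le_iff₀ (lt_of_lt_of_le (by norm_num) h18.1)]
    refine le_trans ?_ (mul_le_mul_of_nonneg_left h18.1 (by norm_num))
    refine le_trans (Real.exp_le_exp.2 h220.2) ?_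
    refine exp_hiR 8 _ _ (by norm_num) (by norm_num) ?_
    norm_num [tayR, Nat.factorial]

end K5S
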