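import Mathlib

/-!
# K5S.Iv : interval arithmetic

`In l h x` : `l ≤ x ∧ x ≤ h`.  The bounds of the results are given and checked by `norm_num`.
-/

namespace K5S

/-- `x` lies between `l` and `h`. -/
def In (l h x : ℝ) : Prop := l ≤ x ∧ x ≤ h

namespace In

theorem add {a b c d x y l h : ℝ} (hx : In a b x) (hy : In c d y) (h1 : l ≤ a + c)
    (h2 : b + d ≤ h) : In l h (x + y) :=
  ⟨h1.trans (add_le_add hx.1 hy.1), (add_le_add hx.2 hy.2).trans h2⟩

theorem sub {a b c d x y l h : ℝ} (hx : In a b x) (hy : In c d y) (h1 : l ≤ a - d)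
    (h2 : b - c ≤ h) : In l h (x - y) :=
  ⟨h1.trans (sub_le_sub hx.1 hy.2), (sub_le_sub hx.2 hy.1).trans h2⟩

theorem neg {a b x l h : ℝ} (hx : In a b x) (h1 : l ≤ -b) (h2 : -a ≤ h) : In l h (-x) :=
  ⟨h1.trans (neg_le_neg hx.2), (neg_le_neg hx.1).trans h2⟩

/-- nonnegative factors -/
theorem mul {a b c d x y l h : ℝ} (hx : In a b x) (hy : In c d y) (ha : 0 ≤ a) (hc : 0 ≤ c)
    (h1 : l ≤ a * c) (h2 : b * d ≤ h) : In l h (x * y) :=
  ⟨h1.trans (mul_le_mul hx.1 hy.1 hc (ha.trans hx.1)),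
    (mul_le_mul hx.2 hy.2 (hc.trans hy.1) ((ha.trans hx.1).trans hx.2)).trans h2⟩

/-- the first factor is nonnegative, the second is nonpositive -/
theorem mulN {a b c d x y l h : ℝ} (hx : In a b x) (hy : In c d y) (ha : 0 ≤ a) (hd : d ≤ 0)
    (h1 : l ≤ b * c) (h2 : a * d ≤ h) : In l h (x * y) := by
  have h3 := hx.1
  have h4 := hx.2
  have h5 := hy.1
  have h6 := hy.2
  constructor
  · refine h1.trans ?_
    nlinarith [mul_nonneg (ha.trans h3) (sub_nonneg.2 h5), mul_nonneg (sub_nonneg.2 h4)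
      (neg_nonneg.2 (h5.trans (h6.trans hd)))]
  · refine le_trans ?_ h2
    nlinarith [mul_nonneg (ha.trans h3) (sub_nonneg.2 h6), mul_nonneg (sub_nonneg.2 h3)
      (neg_nonneg.2 hd)]

/-- arbitrary signs -/
theorem mulG {a b c d x y l h : ℝ} (hx : In a b x) (hy : In c d y) (h1 : l ≤ a * c)
    (h2 : l ≤ a * d) (h3 : l ≤ b * c) (h4 : l ≤ b * d) (k1 : a * c ≤ h) (k2 : a * d ≤ h)
    (k3 : b * c ≤ h) (k4 : b * d ≤ h) : In l h (x * y) := by
  have e1 : min (a * y) (b * y) ≤ x * y := by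
    rcases le_total 0 y with hy0 | hy0
    · exact (min_le_left _ _).trans (mul_le_mul_of_nonneg_right hx.1 hy0)
    · exact (min_le_right _ _).trans (mul_le_mul_of_nonpos_right hx.2 hy0)
  have e2 : x * y ≤ max (a * y) (b * y) := by
    rcases le_total 0 y with hy0 | hy0
    · exact (mul_le_mul_of_nonneg_right hx.2 hy0).trans (le_max_right _ _)
    · exact (mul_le_mul_of_nonpos_right hx.1 hy0).trans (le_max_left _ _)
  have f : ∀ u : ℝ, min (u * c) (u * d) ≤ u * y ∧ u * y ≤ max (u * c) (u * d) := by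
    intro u
    rcases le_total 0 u with hu | hu
    · exact ⟨(min_le_left _ _).trans (mul_le_mul_of_nonneg_left hy.1 hu),
        (mul_le_mul_of_nonneg_left hy.2 hu).trans (le_max_right _ _)⟩
    · exact ⟨(min_le_right _ _).trans (mul_le_mul_of_nonpos_left hy.2 hu),
        (mul_le_mul_of_nonpos_left hy.1 hu).trans (le_max_left _ _)⟩
  exact ⟨(le_min ((le_min h1 h2).trans (f a).1) ((le_min h3 h4).trans (f b).1)).trans e1,
    e2.trans (max_le ((f a).2.trans (max_le k1 k2)) ((f b).2.trans (max_le k3 k4)))⟩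

/-- positive denominator -/
theorem inv {a b x l h : ℝ} (hx : In a b x) (ha : 0 < a) (hl : 0 ≤ l) (h1 : l * b ≤ 1)
    (h2 : 1 ≤ h * a) : In l h x⁻¹ := by
  have hx0 : 0 < x := ha.trans_le hx.1
  have hh : 0 < h := by
    by_contra hc
    push Not at hc
    nlinarith
  constructor
  · rw [le_inv_comm₀' hx0]
    exact le_trans (mul_le_mul_of_nonneg_left hx.2 hl) h1
  · rw [inv_le_iff_one_le_mul₀ hx0]
    exact h2.trans (mul_le_mul_of_nonneg_left hx.1 hh.le)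
where
  le_inv_comm₀' {l x : ℝ} (hx0 : 0 < x) : l ≤ x⁻¹ ↔ l * x ≤ 1 := by
    rw [← one_div, le_div_iff₀ hx0]

/-- positive numerator and denominator -/
theorem div {a b c d x y l h : ℝ} (hx : In a b x) (hy : In c d y) (hc : 0 < c)
    (h1 : l * d ≤ a) (hl : 0 ≤ l) (h2 : b ≤ h * c) (hh : 0 ≤ h) : In l h (x / y) := by
  have hy0 : 0 < y := hc.trans_le hy.1
  constructor
  · rw [le_div_iff₀ hy0]
    exact (mul_le_mul_of_nonneg_left hy.2 hl).trans (h1.trans hx.1)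
  · rw [div_le_iff₀ hy0]
    exact hx.2.trans (h2.trans (mul_le_mul_of_nonneg_left hy.1 hh))

/-- nonpositive numerator and positive denominator -/
theorem divN {a b c d x y l h : ℝ} (hx : In a b x) (hy : In c d y) (hc : 0 < c)
    (h1 : l * c ≤ a) (hl : l ≤ 0) (h2 : b ≤ h * d) (hh : h ≤ 0) : In l h (x / y) := by
  have hy0 : 0 < y := hc.trans_le hy.1
  constructor
  · rw [le_div_iff₀ hy0]
    exact (mul_le_mul_of_nonpos_left hy.1 hl).trans (h1.trans hx.1)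
  · rw [div_le_iff₀ hy0]
    exact hx.2.trans (h2.trans (mul_le_mul_of_nonpos_left hy.2 hh))

/-- numerator of any sign and positive denominator -/
theorem divG {a b c d x y l h : ℝ} (hx : In a b x) (hy : In c d y) (hc : 0 < c)
    (h1 : l * c ≤ a) (hl : l ≤ 0) (h2 : b ≤ h * c) (hh : 0 ≤ h) : In l h (x / y) := by
  have hy0 : 0 < y := hc.trans_le hy.1
  constructor
  · rw [le_div_iff₀ hy0]
    exact (mul_le_mul_of_nonpos_left hy.1 hl).trans (h1.trans hx.1)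
  · rw [div_le_iff₀ hy0]
    exact hx.2.trans (h2.trans (mul_le_mul_of_nonneg_left hy.1 hh))

theorem pow {a b x l h : ℝ} (n : ℕ) (hx : In a b x) (ha : 0 ≤ a) (h1 : l ≤ a ^ n)
    (h2 : b ^ n ≤ h) : In l h (x ^ n) :=
  ⟨h1.trans (pow_le_pow_left₀ ha hx.1 n), (pow_le_pow_left₀ (ha.trans hx.1) hx.2 n).trans h2⟩

theorem wk {a b x l h : ℝ} (hx : In a b x) (h1 : l ≤ a) (h2 : b ≤ h) : In l h x :=
  ⟨h1.trans hx.1, hx.2.trans h2⟩

theorem const {c l h : ℝ} (h1 : l ≤ c) (h2 : c ≤ h) : In l h c := ⟨h1, h2⟩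

theorem congr {a b x y : ℝ} (hx : In a b x) (h : x = y) : In a b y := h ▸ hx

/-- from an upper bound of `exp l` and a lower bound of `exp h` -/
theorem log {a b x l h : ℝ} (hx : In a b x) (ha : 0 < a) (h1 : Real.exp l ≤ a)
    (h2 : b ≤ Real.exp h) : In l h (Real.log x) := by
  have hx0 : 0 < x := ha.trans_le hx.1
  exact ⟨(Real.le_log_iff_exp_le hx0).2 (h1.trans hx.1),
    (Real.log_le_iff_le_exp hx0).2 (hx.2.trans h2)⟩

theorem exp {a b x l h : ℝ} (hx : In a b x) (h1 : l ≤ Real.exp a) (h2 : Real.exp b ≤ h) :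
    In l h (Real.exp x) :=
  ⟨h1.trans (Real.exp_le_exp.2 hx.1), (Real.exp_le_exp.2 hx.2).trans h2⟩

/-! ### the same with one side condition -/

variable {a b c d x y l h : ℝ}

theorem add' (hx : In a b x) (hy : In c d y) (k : l ≤ a + c ∧ b + d ≤ h) : In l h (x + y) :=
  hx.add hy k.1 k.2

theorem sub' (hx : In a b x) (hy : In c d y) (k : l ≤ a - d ∧ b - c ≤ h) : In l h (x - y) :=
  hx.sub hy k.1 k.2

theorem neg' (hx : In a b x) : In (-b) (-a) (-x) := hx.neg le_rfl le_rfl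

theorem mul' (hx : In a b x) (hy : In c d y) (k : 0 ≤ a ∧ 0 ≤ c ∧ l ≤ a * c ∧ b * d ≤ h) :
    In l h (x * y) := hx.mul hy k.1 k.2.1 k.2.2.1 k.2.2.2

theorem mulN' (hx : In a b x) (hy : In c d y) (k : 0 ≤ a ∧ d ≤ 0 ∧ l ≤ b * c ∧ a * d ≤ h) :
    In l h (x * y) := hx.mulN hy k.1 k.2.1 k.2.2.1 k.2.2.2

theorem mulG' (hx : In a b x) (hy : In c d y)
    (k : l ≤ a * c ∧ l ≤ a * d ∧ l ≤ b * c ∧ l ≤ b * d ∧ a * c ≤ h ∧ a * d ≤ h ∧ b * c ≤ h ∧
      b * d ≤ h) : In l h (x * y) :=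
  hx.mulG hy k.1 k.2.1 k.2.2.1 k.2.2.2.1 k.2.2.2.2.1 k.2.2.2.2.2.1 k.2.2.2.2.2.2.1
    k.2.2.2.2.2.2.2

theorem div' (hx : In a b x) (hy : In c d y)
    (k : 0 < c ∧ l * d ≤ a ∧ 0 ≤ l ∧ b ≤ h * c ∧ 0 ≤ h) : In l h (x / y) :=
  ⟨by
    have hy0 : 0 < y := k.1.trans_le hy.1
    rw [le_div_iff₀ hy0]
    exact (mul_le_mul_of_nonneg_left hy.2 k.2.2.1).trans (k.2.1.trans hx.1), by
    have hy0 : 0 < y := k.1.trans_le hy.1
    rw [div_le_iff₀ hy0]
    exact hx.2.trans (k.2.2.2.1.trans (mul_le_mul_of_nonneg_left hy.1 k.2.2.2.2))⟩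

theorem divN' (hx : In a b x) (hy : In c d y)
    (k : 0 < c ∧ l * c ≤ a ∧ l ≤ 0 ∧ b ≤ h * d ∧ h ≤ 0) : In l h (x / y) :=
  hx.divN hy k.1 k.2.1 k.2.2.1 k.2.2.2.1 k.2.2.2.2

theorem divG' (hx : In a b x) (hy : In c d y)
    (k : 0 < c ∧ l * c ≤ a ∧ l ≤ 0 ∧ b ≤ h * c ∧ 0 ≤ h) : In l h (x / y) :=
  hx.divG hy k.1 k.2.1 k.2.2.1 k.2.2.2.1 k.2.2.2.2

theorem pow' (n : ℕ) (hx : In a b x) (k : 0 ≤ a ∧ l ≤ a ^ n ∧ b ^ n ≤ h) : In l h (x ^ n) :=
  hx.pow n k.1 k.2.1 k.2.2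

end In

/-- Taylor polynomial of `exp` of degree `n`. -/
noncomputable def tayR : ℕ → ℝ → ℝ
  | 0, _ => 1
  | (n + 1), q => tayR n q + q ^ (n + 1) / (n + 1).factorial

theorem tayR_eq (n : ℕ) (q : ℝ) : tayR n q =
    ∑ m ∈ Finset.range (n + 1), q ^ m / (m.factorial : ℝ) := by
  induction n with
  | zero => simp [tayR]
  | succ n ih => rw [Finset.sum_range_succ, ← ih, tayR]

/-- Lower bound of `exp` at a rational point. -/
theorem exp_loR (n : ℕ) (q l : ℝ) (hq : 0 ≤ q) (h : l ≤ tayR n q) : l ≤ Real.exp q := by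
  refine h.trans ?_
  rw [tayR_eq]
  exact Real.sum_le_exp_of_nonneg hq _

/-- Upper bound of `exp` at a rational point of `[0, 1]`. -/
theorem exp_hiR (n : ℕ) (q u : ℝ) (hq : 0 ≤ q) (hq1 : q ≤ 1)
    (h : tayR n q + q ^ (n + 1) * (n + 2) / ((n + 1).factorial * (n + 1)) ≤ u) :
    Real.exp q ≤ u := by
  refine le_trans ?_ h
  have h2 := Real.exp_bound' hq hq1 (Nat.succ_pos n)
  rw [tayR_eq]
  refine h2.trans (le_of_eq ?_)
  simp only [Nat.succ_eq_add_one]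
  push_cast
  ring

/-- Lower bound of `exp` at twice a rational point. -/
theorem exp_loR2 (n : ℕ) (p q l v : ℝ) (hp : p = 2 * q) (hq : 0 ≤ q) (hl : 0 ≤ l)
    (h : l ≤ tayR n q) (hv : v ≤ l ^ 2) : v ≤ Real.exp p := by
  have h1 := exp_loR n q l hq h
  have h2 : Real.exp p = Real.exp q ^ 2 := by rw [hp, ← Real.exp_nat_mul]; norm_num
  rw [h2]
  exact hv.trans (pow_le_pow_left₀ hl h1 2)

/-- Upper bound of `exp` at twice a rational point of `[0, 1]`. -/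
theorem exp_hiR2 (n : ℕ) (p q u v : ℝ) (hp : p = 2 * q) (hq : 0 ≤ q) (hq1 : q ≤ 1)
    (h : tayR n q + q ^ (n + 1) * (n + 2) / ((n + 1).factorial * (n + 1)) ≤ u)
    (hv : u ^ 2 ≤ v) : Real.exp p ≤ v := by
  have h1 := exp_hiR n q u hq hq1 h
  have h2 : Real.exp p = Real.exp q ^ 2 := by rw [hp, ← Real.exp_nat_mul]; norm_num
  rw [h2]
  exact (pow_le_pow_left₀ (Real.exp_pos _).le h1 2).trans hv

end K5S
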